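import Pool.Agent.Y113.TA.Grp
import Pool.Agent.H45R2.MatVar.Gamma

/-!
# Failure of the Tits alternative for pro-p groups of matrices of every degree at least two

The starting result shows for `n ≥ 3` that there is a non-soluble pro-p group `G` of `n × n` matrices over a commutative
profinite ring such that `Γ_p` does not lie in the variety generated by `G`. Here:

* the degree `n = 2` is included if `p` is odd. The dichotomy fails already for `2 × 2` matrices: over a profinite ring with
  nilpotent elements of bounded index `p` (not a domain) the group of all matrices congruent to `1` modulo the radical has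
  exponent `p ^ 2`, and commutators of elementary matrices `1 + a e_12`, `1 + b e_21` with `a ^ 2 = b ^ 2 = 0` show that it is
  not soluble;
* the group `G` is locally finite (every finitely generated abstract subgroup is finite), and every pro-p group in the
  variety generated by `G` has exponent dividing `p ^ k` as soon as `n p ≤ p ^ k`, for example exponent `p ^ 2` if `n ≤ p`.
  So not only `Γ_p` but no pro-p group of larger exponent lies in the variety of `G`: there is no Tits alternative with any
  other test group instead of `Γ_p` which is not of finite exponent.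
-/

set_option autoImplicit false

namespace Pool.Agent.Results.MP_c0708e_al.LocallyFiniteGroups

open Pool.Agent.Helper429.PT Pool.Agent.H45R2.MatVar Pool.Agent.Y113.TA
open scoped PowerSeries.WithPiTopology

/-- For every prime `p` and every `n ≥ 2`, `n ≥ 3` if `p = 2`, there is a pro-p group `G` of `n × n` matrices which is not
soluble, all of whose finitely generated (abstract) subgroups are finite, such that every group in the variety of pro-p
groups generated by `G` satisfies `x ^ (p ^ k) = 1` if `n p ≤ p ^ k`; in particular `Γ_p` does not lie in it. -/
theorem result (p : ℕ) (hp : p.Prime) (n : ℕ) (hn : 2 ≤ n) (h : p ≠ 2 ∨ 3 ≤ n) :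
    ∃ (G : Type) (_ : Group G) (_ : TopologicalSpace G) (_ : IsTopologicalGroup G),
      IsMatrixProP p n G ∧ ¬ Group.IsSolvable G ∧
      (∀ s : Finset G, Finite (Subgroup.closure (s : Set G))) ∧
      (∀ k : ℕ, n * p ≤ p ^ k → ∀ (H : Type) [Group H] [TopologicalSpace H] [IsTopologicalGroup H],
        InVar p G H → ∀ x : H, x ^ (p ^ k) = 1) ∧
      ¬ InVar p G (GammaP p) := by
  have hvar : ∀ k : ℕ, n * p ≤ p ^ k → ∀ (H : Type) [Group H] [TopologicalSpace H] [IsTopologicalGroup H],
      InVar p (KK hp n) H → ∀ x : H, x ^ (p ^ k) = 1 := by
    intro k hk H _ _ _ hH x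
    have h1 := hH (lawVariety hp {(FreeGroup.of 0) ^ (p ^ k)}) ⟨isProP_KK hp (by omega), by
      intro w hw φ
      rw [Set.mem_singleton_iff] at hw
      rw [hw, map_pow]
      exact exponent hp (by omega) hk _⟩
    have h2 := h1.2 _ rfl (FreeGroup.lift fun _ => x)
    rwa [map_pow, FreeGroup.lift_apply_of] at h2
  refine ⟨KK hp n, inferInstance, inferInstance, inferInstance, ⟨isProP_KK hp (by omega), ?_⟩, ?_,
    locally_finite hp (by omega), hvar, ?_⟩
  · have := compact_KK hp n
    have h1 : T2Space (Matrix (Fin n) (Fin n) (RR hp)) :=
      inferInstanceAs (T2Space (Fin n → Fin n → RR hp))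
    exact ⟨RR hp, inferInstance, inferInstance, inferInstance, inferInstance, inferInstance,
      inferInstance, (KK hp n).subtype, (continuous_val_KK hp n).isClosedEmbedding
        (injective_val_KK hp n)⟩
  · rcases h with h | h
    · exact not_solvable2 hp hn h
    · exact not_solvable hp h
  · intro hG
    have h2 := hvar n (le_pow hp (by omega)) (GammaP p) hG ⟨upper p * lower p, mem_gamma p⟩
    exact gamma_pow hp n (congrArg Subtype.val h2)

end Pool.Agent.Results.MP_c0708e_al.LocallyFiniteGroups
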